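import Mathlib

/-!
# At least `n ^ (4/3) / 70` unit-perimeter triangles on `n` points

`u n` is the maximum number of (nondegenerate) triangles of perimeter `1` spanned by `n` points of
the Euclidean plane. We show `u n ≥ n ^ (4/3) / 70` for all `n ≥ 3`.

Idea. Fix a vertex `o` and let `s = 1/2`. A triangle `o a b` has perimeter `2 s` if and only if
`sin² (γ/2) = (s - |oa|) (s - |ob|) / (|oa| |ob|)`, where `γ` is the angle at `o`. If the plane is
identified with `ℂ` and `o = 0`, this says `det (U, V)² = 1` for `U = √(a / (s - |a|))`,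
`V = √(b / (s - |b|))`: for a fixed vertex the relation is a relation between points and lines. The
extremal grid of the Szemerédi-Trotter theorem gives the points

* `a = s (1 + i m)² / (1 + m² + c²)`, `1 ≤ m ≤ N`, `N + 1 ≤ c ≤ N + N²`, and
* `b = s (x + i y)² / (1 + x² + y²)`, `1 ≤ x ≤ N`, `N + 2 ≤ y ≤ 2 N² + N`,

and `0 a b` has perimeter `1` whenever `y = m x + c`. So `3 N³` points span `N⁴` triangles.
-/

namespace Pool.Agent.Results.MP_75315a_co.FourThirds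

open Finset

/-- The Euclidean plane. -/
abbrev Plane : Type := EuclideanSpace ℝ (Fin 2)

/-- The finite set `t` consists of the three vertices of a nondegenerate triangle of
perimeter `1`. -/
def IsUnitPerimeterTriangle (t : Finset Plane) : Prop :=
  ∃ a b c : Plane, t = {a, b, c} ∧ AffineIndependent ℝ ![a, b, c] ∧
    dist a b + dist b c + dist c a = 1

/-- The number of triangles of perimeter `1` spanned by the finite set `P`, every triangle being
counted once, as a set of three points of `P`. -/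
noncomputable def triangleCount (P : Finset Plane) : ℕ :=
  Set.ncard {t : Finset Plane | t ⊆ P ∧ IsUnitPerimeterTriangle t}

/-- The maximum number of triangles of perimeter `1` spanned by `n` points of the plane. -/
noncomputable def u (n : ℕ) : ℕ :=
  sSup {k : ℕ | ∃ P : Finset Plane, P.card = n ∧ triangleCount P = k}

/-! ### Generalities -/

lemma finite_triangles (P : Finset Plane) :
    {t : Finset Plane | t ⊆ P ∧ IsUnitPerimeterTriangle t}.Finite := by
  apply (P.powerset.finite_toSet).subset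
  intro t ht
  simpa using ht.1

lemma triangleCount_le (P : Finset Plane) : triangleCount P ≤ 2 ^ P.card := by
  unfold triangleCount
  calc Set.ncard {t : Finset Plane | t ⊆ P ∧ IsUnitPerimeterTriangle t}
      ≤ Set.ncard (P.powerset : Set (Finset Plane)) := by
        apply Set.ncard_le_ncard _ (P.powerset.finite_toSet)
        intro t ht
        simpa using ht.1
    _ = 2 ^ P.card := by rw [Set.ncard_coe_finset, card_powerset]

lemma triangleCount_mono {P Q : Finset Plane} (h : P ⊆ Q) :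
    triangleCount P ≤ triangleCount Q := by
  unfold triangleCount
  apply Set.ncard_le_ncard _ (finite_triangles Q)
  intro t ht
  exact ⟨ht.1.trans h, ht.2⟩

lemma bddAbove_counts (n : ℕ) :
    BddAbove {k : ℕ | ∃ P : Finset Plane, P.card = n ∧ triangleCount P = k} := by
  refine ⟨2 ^ n, ?_⟩
  rintro k ⟨P, hP, rfl⟩
  rw [← hP]
  exact triangleCount_le P

lemma triangleCount_le_u (P : Finset Plane) (n : ℕ) (hP : P.card ≤ n) :
    triangleCount P ≤ u n := by
  obtain ⟨Q, hPQ, hQ⟩ := Infinite.exists_superset_card_eq P n hP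
  calc triangleCount P ≤ triangleCount Q := triangleCount_mono hPQ
    _ ≤ u n := le_csSup (bddAbove_counts n) ⟨Q, hQ, rfl⟩

/-! ### The triangles -/

lemma dist_mk (x y x' y' : ℝ) :
    dist (!₂[x, y] : Plane) !₂[x', y'] = √((x - x') ^ 2 + (y - y') ^ 2) := by
  rw [EuclideanSpace.dist_eq]
  simp [Fin.sum_univ_two, Real.dist_eq, sq_abs]

/-- The points near the origin. -/
noncomputable def pA (m c : ℝ) : Plane :=
  !₂[(1 / 2) * (1 - m ^ 2) / (1 + m ^ 2 + c ^ 2), (1 / 2) * (2 * m) / (1 + m ^ 2 + c ^ 2)]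

/-- The points near the circle of radius `1/2`. -/
noncomputable def pB (x y : ℝ) : Plane :=
  !₂[(1 / 2) * (x ^ 2 - y ^ 2) / (1 + x ^ 2 + y ^ 2), (1 / 2) * (2 * x * y) / (1 + x ^ 2 + y ^ 2)]

/-- The origin. -/
noncomputable def pO : Plane := !₂[0, 0]

lemma sqrt_eq_of_sq {a b : ℝ} (hb : 0 ≤ b) (h : a = b ^ 2) : √a = b := by
  rw [h, Real.sqrt_sq hb]

lemma dist_O_A (m c : ℝ) : dist pO (pA m c) = (1 / 2) * (1 + m ^ 2) / (1 + m ^ 2 + c ^ 2) := by
  unfold pO pA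
  rw [dist_mk]
  apply sqrt_eq_of_sq
  · positivity
  · have h : (1 + m ^ 2 + c ^ 2 : ℝ) ≠ 0 := by positivity
    field_simp
    ring

lemma dist_B_O (x y : ℝ) :
    dist (pB x y) pO = (1 / 2) * (x ^ 2 + y ^ 2) / (1 + x ^ 2 + y ^ 2) := by
  unfold pO pB
  rw [dist_mk]
  apply sqrt_eq_of_sq
  · positivity
  · have h : (1 + x ^ 2 + y ^ 2 : ℝ) ≠ 0 := by positivity
    field_simp
    ring

lemma dist_A_B (m c x : ℝ) : dist (pA m c) (pB x (m * x + c)) =
    (1 / 2) * (c ^ 2 / (1 + m ^ 2 + c ^ 2) + 1 / (1 + x ^ 2 + (m * x + c) ^ 2)) := by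
  unfold pA pB
  rw [dist_mk]
  apply sqrt_eq_of_sq
  · positivity
  · have h : (1 + m ^ 2 + c ^ 2 : ℝ) ≠ 0 := by positivity
    have h' : (1 + x ^ 2 + (m * x + c) ^ 2 : ℝ) ≠ 0 := by positivity
    field_simp
    ring

lemma perimeter (m c x : ℝ) : dist pO (pA m c) + dist (pA m c) (pB x (m * x + c)) +
    dist (pB x (m * x + c)) pO = 1 := by
  rw [dist_O_A, dist_B_O, dist_A_B]
  have h : (1 + m ^ 2 + c ^ 2 : ℝ) ≠ 0 := by positivity
  have h' : (1 + x ^ 2 + (m * x + c) ^ 2 : ℝ) ≠ 0 := by positivity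
  field_simp
  ring

lemma affineIndependent_of_cross {a1 a2 b1 b2 : ℝ} (h : a1 * b2 - a2 * b1 ≠ 0) :
    AffineIndependent ℝ ![pO, (!₂[a1, a2] : Plane), !₂[b1, b2]] := by
  rw [affineIndependent_iff_not_collinear_set]
  intro hcol
  rw [collinear_iff_of_mem (p₀ := pO) (by simp)] at hcol
  obtain ⟨v, hv⟩ := hcol
  obtain ⟨r, hr⟩ := hv !₂[a1, a2] (by simp)
  obtain ⟨t, ht⟩ := hv !₂[b1, b2] (by simp)
  apply h
  have e1 : a1 = r * v 0 := by
    have := congrArg (fun p : Plane => p 0) hr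
    simpa [pO] using this
  have e2 : a2 = r * v 1 := by
    have := congrArg (fun p : Plane => p 1) hr
    simpa [pO] using this
  have e3 : b1 = t * v 0 := by
    have := congrArg (fun p : Plane => p 0) ht
    simpa [pO] using this
  have e4 : b2 = t * v 1 := by
    have := congrArg (fun p : Plane => p 1) ht
    simpa [pO] using this
  rw [e1, e2, e3, e4]
  ring

lemma isUnit (m c x : ℝ) (hm : 0 < m) (hc : 0 < c) (hx : 0 < x) :
    IsUnitPerimeterTriangle {pO, pA m c, pB x (m * x + c)} := by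
  refine ⟨pO, pA m c, pB x (m * x + c), rfl, ?_, perimeter m c x⟩
  apply affineIndependent_of_cross
  have h : (0 : ℝ) < 1 + m ^ 2 + c ^ 2 := by positivity
  have h' : (0 : ℝ) < 1 + x ^ 2 + (m * x + c) ^ 2 := by positivity
  have e : (1 / 2) * (1 - m ^ 2) / (1 + m ^ 2 + c ^ 2) *
      ((1 / 2) * (2 * x * (m * x + c)) / (1 + x ^ 2 + (m * x + c) ^ 2)) -
      (1 / 2) * (2 * m) / (1 + m ^ 2 + c ^ 2) *
      ((1 / 2) * (x ^ 2 - (m * x + c) ^ 2) / (1 + x ^ 2 + (m * x + c) ^ 2)) =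
      c * (x + m * (m * x + c)) / (2 * (1 + m ^ 2 + c ^ 2) * (1 + x ^ 2 + (m * x + c) ^ 2)) := by
    field_simp
    ring
  rw [e]
  have : 0 < c * (x + m * (m * x + c)) /
      (2 * (1 + m ^ 2 + c ^ 2) * (1 + x ^ 2 + (m * x + c) ^ 2)) := by positivity
  exact this.ne'

/-! ### Distinct parameters give distinct triangles -/

lemma coord0 (x y : ℝ) : (!₂[x, y] : Plane) 0 = x := rfl
lemma coord1 (x y : ℝ) : (!₂[x, y] : Plane) 1 = y := rfl

lemma pA_inj {m c m' c' : ℝ} (hm : 0 < m) (hc : 0 < c) (hm' : 0 < m') (hc' : 0 < c')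
    (h : pA m c = pA m' c') : m = m' ∧ c = c' := by
  have h0 := congrArg (fun p : Plane => p 0) h
  have h1 := congrArg (fun p : Plane => p 1) h
  have hd : dist pO (pA m c) = dist pO (pA m' c') := by rw [h]
  rw [dist_O_A, dist_O_A] at hd
  simp only [pA, coord0, coord1] at h0 h1
  have hA : (0 : ℝ) < 1 + m ^ 2 + c ^ 2 := by positivity
  have hA' : (0 : ℝ) < 1 + m' ^ 2 + c' ^ 2 := by positivity
  -- adding up: `1 / (1 + m² + c²)` is determined
  have e1 : 1 / (1 + m ^ 2 + c ^ 2) = 1 / (1 + m' ^ 2 + c' ^ 2) := by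
    have p1 : 1 / (1 + m ^ 2 + c ^ 2) = (1 / 2) * (1 - m ^ 2) / (1 + m ^ 2 + c ^ 2) +
      (1 / 2) * (1 + m ^ 2) / (1 + m ^ 2 + c ^ 2) := by field_simp; ring
    have p2 : 1 / (1 + m' ^ 2 + c' ^ 2) = (1 / 2) * (1 - m' ^ 2) / (1 + m' ^ 2 + c' ^ 2) +
      (1 / 2) * (1 + m' ^ 2) / (1 + m' ^ 2 + c' ^ 2) := by field_simp; ring
    rw [p1, p2, h0, hd]
  have e2 : 1 + m ^ 2 + c ^ 2 = 1 + m' ^ 2 + c' ^ 2 := by
    field_simp at e1
    linarith
  have e3 : m = m' := by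
    rw [e2] at h1
    field_simp at h1
    linarith
  refine ⟨e3, ?_⟩
  subst e3
  have : c ^ 2 = c' ^ 2 := by linarith
  exact (sq_eq_sq₀ hc.le hc'.le).mp this

lemma pB_inj {x y x' y' : ℝ} (hx : 0 < x) (hy : 0 < y) (hx' : 0 < x') (hy' : 0 < y')
    (h : pB x y = pB x' y') : x = x' ∧ y = y' := by
  have h0 := congrArg (fun p : Plane => p 0) h
  have hd : dist (pB x y) pO = dist (pB x' y') pO := by rw [h]
  rw [dist_B_O, dist_B_O] at hd
  simp only [pB, coord0] at h0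
  have hA : (0 : ℝ) < 1 + x ^ 2 + y ^ 2 := by positivity
  have hA' : (0 : ℝ) < 1 + x' ^ 2 + y' ^ 2 := by positivity
  have e2 : 1 + x ^ 2 + y ^ 2 = 1 + x' ^ 2 + y' ^ 2 := by
    field_simp at hd
    nlinarith
  rw [e2] at h0
  have e3 : x ^ 2 - y ^ 2 = x' ^ 2 - y' ^ 2 := by
    field_simp at h0
    linarith
  have e4 : x ^ 2 = x' ^ 2 := by linarith
  have e5 : y ^ 2 = y' ^ 2 := by linarith
  exact ⟨(sq_eq_sq₀ hx.le hx'.le).mp e4, (sq_eq_sq₀ hy.le hy'.le).mp e5⟩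

lemma dist_O_A_lt {m c : ℝ} (hm : 1 ≤ m) (hc : m + 1 ≤ c) : dist pO (pA m c) < 1 / 4 := by
  rw [dist_O_A, div_lt_iff₀ (by positivity)]
  nlinarith

lemma dist_O_B_gt {x y : ℝ} (hx : 1 ≤ x) (hy : 1 ≤ y) : 1 / 4 < dist pO (pB x y) := by
  rw [dist_comm, dist_B_O, lt_div_iff₀ (by positivity)]
  nlinarith

/-! ### The point sets -/

/-- Parameters of the triangles: `(m, c, x)`. -/
def params (N : ℕ) : Finset ((ℕ × ℕ) × ℕ) :=
  (Icc 1 N ×ˢ Icc (N + 1) (N + N ^ 2)) ×ˢ Icc 1 N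

/-- The set of at most `3 N ^ 3` points. -/
noncomputable def pts (N : ℕ) : Finset Plane :=
  insert pO (((Icc 1 N ×ˢ Icc (N + 1) (N + N ^ 2)).image (fun q : ℕ × ℕ => pA q.1 q.2)) ∪
    ((Icc 1 N ×ˢ Icc (N + 2) (2 * N ^ 2 + N)).image (fun q : ℕ × ℕ => pB q.1 q.2)))

/-- The triangle with parameters `(m, c, x)`. -/
noncomputable def tri (q : (ℕ × ℕ) × ℕ) : Finset Plane :=
  {pO, pA q.1.1 q.1.2, pB q.2 ((q.1.1 : ℝ) * q.2 + q.1.2)}

lemma card_pts (N : ℕ) (hN : 1 ≤ N) : (pts N).card ≤ 3 * N ^ 3 := by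
  unfold pts
  refine (card_insert_le _ _).trans ?_
  have h1 := card_union_le
    ((Icc 1 N ×ˢ Icc (N + 1) (N + N ^ 2)).image (fun q : ℕ × ℕ => pA q.1 q.2))
    ((Icc 1 N ×ˢ Icc (N + 2) (2 * N ^ 2 + N)).image (fun q : ℕ × ℕ => pB q.1 q.2))
  have h2 : ((Icc 1 N ×ˢ Icc (N + 1) (N + N ^ 2)).image
      (fun q : ℕ × ℕ => pA q.1 q.2)).card ≤ N * N ^ 2 := by
    refine card_image_le.trans ?_
    rw [card_product, Nat.card_Icc, Nat.card_Icc]
    apply Nat.mul_le_mul <;> omega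
  have h3 : ((Icc 1 N ×ˢ Icc (N + 2) (2 * N ^ 2 + N)).image
      (fun q : ℕ × ℕ => pB q.1 q.2)).card ≤ N * (2 * N ^ 2 - 1) := by
    refine card_image_le.trans ?_
    rw [card_product, Nat.card_Icc, Nat.card_Icc]
    apply Nat.mul_le_mul <;> omega
  have h4 : N * (2 * N ^ 2 - 1) + N = 2 * N ^ 3 := by
    have : 1 ≤ 2 * N ^ 2 := by nlinarith
    obtain ⟨k, hk⟩ := Nat.exists_eq_add_of_le this
    have e : 2 * N ^ 2 - 1 = k := by omega
    rw [e]
    calc N * k + N = N * (1 + k) := by ring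
      _ = N * (2 * N ^ 2) := by rw [← hk]
      _ = 2 * N ^ 3 := by ring
  have h5 : N * N ^ 2 = N ^ 3 := by ring
  omega

lemma tri_subset {N : ℕ} {q : (ℕ × ℕ) × ℕ} (hq : q ∈ params N) : tri q ⊆ pts N := by
  obtain ⟨⟨m, c⟩, x⟩ := q
  simp only [params, mem_product, mem_Icc] at hq
  obtain ⟨⟨⟨hm1, hm2⟩, hc1, hc2⟩, hx1, hx2⟩ := hq
  unfold tri pts
  intro p hp
  simp only [mem_insert, mem_singleton] at hp
  rcases hp with rfl | rfl | rfl
  · exact mem_insert_self _ _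
  · apply mem_insert_of_mem
    apply mem_union_left
    exact mem_image.mpr ⟨(m, c), by simp only [mem_product, mem_Icc]; omega, rfl⟩
  · apply mem_insert_of_mem
    apply mem_union_right
    refine mem_image.mpr ⟨(x, m * x + c), ?_, by push_cast; rfl⟩
    simp only [mem_product, mem_Icc]
    have h1 : 1 * 1 ≤ m * x := Nat.mul_le_mul hm1 hx1
    have h2 : m * x ≤ N * N := Nat.mul_le_mul hm2 hx2
    have h3 : N * N = N ^ 2 := by ring
    omega

lemma tri_isUnit {N : ℕ} {q : (ℕ × ℕ) × ℕ} (hq : q ∈ params N) :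
    IsUnitPerimeterTriangle (tri q) := by
  obtain ⟨⟨m, c⟩, x⟩ := q
  simp only [params, mem_product, mem_Icc] at hq
  obtain ⟨⟨⟨hm1, hm2⟩, hc1, hc2⟩, hx1, hx2⟩ := hq
  apply isUnit
  · exact_mod_cast hm1
  · have : 0 < c := by omega
    exact_mod_cast this
  · exact_mod_cast hx1

lemma tri_injOn (N : ℕ) : Set.InjOn tri (params N : Set ((ℕ × ℕ) × ℕ)) := by
  rintro ⟨⟨m, c⟩, x⟩ hq ⟨⟨m', c'⟩, x'⟩ hq' h
  rw [mem_coe] at hq hq'
  simp only [params, mem_product, mem_Icc] at hq hq'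
  obtain ⟨⟨⟨hm1, hm2⟩, hc1, hc2⟩, hx1, hx2⟩ := hq
  obtain ⟨⟨⟨hm1', hm2'⟩, hc1', hc2'⟩, hx1', hx2'⟩ := hq'
  have rm : (1 : ℝ) ≤ m := by exact_mod_cast hm1
  have rc : (m : ℝ) + 1 ≤ c := by exact_mod_cast (by omega : m + 1 ≤ c)
  have rx : (1 : ℝ) ≤ x := by exact_mod_cast hx1
  have rm' : (1 : ℝ) ≤ m' := by exact_mod_cast hm1'
  have rc' : (m' : ℝ) + 1 ≤ c' := by exact_mod_cast (by omega : m' + 1 ≤ c')
  have rx' : (1 : ℝ) ≤ x' := by exact_mod_cast hx1'
  have pmx : (0 : ℝ) ≤ (m : ℝ) * x := by positivity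
  have pmx' : (0 : ℝ) ≤ (m' : ℝ) * x' := by positivity
  have ry : (1 : ℝ) ≤ m * x + c := by linarith
  have ry' : (1 : ℝ) ≤ m' * x' + c' := by linarith
  have dA := dist_O_A_lt rm rc
  have dA' := dist_O_A_lt rm' rc'
  have dB := dist_O_B_gt rx ry
  have dB' := dist_O_B_gt rx' ry'
  have dA0 : 0 < dist pO (pA m c) := by
    rw [dist_O_A]; positivity
  have hA : pA m c ∈ tri ((m', c'), x') := by
    rw [← h]; simp [tri]
  have hB : pB x ((m : ℝ) * x + c) ∈ tri ((m', c'), x') := by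
    rw [← h]; simp [tri]
  simp only [tri, mem_insert, mem_singleton] at hA hB
  have eA : pA m c = pA m' c' := by
    rcases hA with e | e | e
    · rw [e, dist_self] at dA0
      exact absurd dA0 (lt_irrefl _)
    · exact e
    · rw [e] at dA
      linarith
  have eB : pB x ((m : ℝ) * x + c) = pB x' ((m' : ℝ) * x' + c') := by
    rcases hB with e | e | e
    · rw [e, dist_self] at dB
      linarith
    · rw [e] at dB
      linarith
    · exact e
  obtain ⟨e1, e2⟩ := pA_inj (by linarith) (by linarith) (by linarith) (by linarith) eA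
  obtain ⟨e3, -⟩ := pB_inj (by linarith) (by linarith) (by linarith) (by linarith) eB
  have e1' : m = m' := by exact_mod_cast e1
  have e2' : c = c' := by exact_mod_cast e2
  have e3' : x = x' := by exact_mod_cast e3
  rw [e1', e2', e3']

lemma pow_four_le_triangleCount (N : ℕ) : N ^ 4 ≤ triangleCount (pts N) := by
  unfold triangleCount
  have h1 : ((params N).image tri : Set (Finset Plane)) ⊆
      {t : Finset Plane | t ⊆ pts N ∧ IsUnitPerimeterTriangle t} := by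
    intro t ht
    rw [coe_image, Set.mem_image] at ht
    obtain ⟨q, hq, rfl⟩ := ht
    exact ⟨tri_subset (mem_coe.mp hq), tri_isUnit (mem_coe.mp hq)⟩
  have h2 := Set.ncard_le_ncard h1 (finite_triangles _)
  rw [Set.ncard_coe_finset, card_image_of_injOn (tri_injOn N)] at h2
  refine le_trans (le_of_eq ?_) h2
  unfold params
  rw [card_product, card_product, Nat.card_Icc, Nat.card_Icc]
  have e1 : N + 1 - 1 = N := by omega
  have e2 : N + N ^ 2 + 1 - (N + 1) = N ^ 2 := by omega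
  rw [e1, e2]
  ring

lemma pow_four_le_u {N n : ℕ} (hN : 1 ≤ N) (h : 3 * N ^ 3 ≤ n) : N ^ 4 ≤ u n :=
  (pow_four_le_triangleCount N).trans (triangleCount_le_u _ n ((card_pts N hN).trans h))

/-- **Theorem.** For every `n ≥ 3`, some `n` points of the plane span at least `n ^ (4/3) / 70`
triangles of perimeter `1`: the maximum number `u n` of unit-perimeter triangles spanned by `n`
points of the plane satisfies `u n ≥ n ^ (4/3) / 70`. -/
theorem result (n : ℕ) (hn : 3 ≤ n) : (n : ℝ) ^ (4 / 3 : ℝ) / 70 ≤ (u n : ℝ) := by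
  -- `t = (n / 3) ^ (1/3)`
  set t : ℝ := ((n : ℝ) / 3) ^ (1 / 3 : ℝ) with ht
  have hn0 : (0 : ℝ) ≤ (n : ℝ) / 3 := by positivity
  have hn1 : (1 : ℝ) ≤ (n : ℝ) / 3 := by
    rw [le_div_iff₀ (by norm_num)]
    exact_mod_cast hn
  have ht3 : t ^ 3 = (n : ℝ) / 3 := by
    rw [ht, ← Real.rpow_natCast, ← Real.rpow_mul hn0]
    norm_num
  have ht1 : 1 ≤ t := Real.one_le_rpow hn1 (by norm_num)
  have ht4 : t ^ 4 = ((n : ℝ) / 3) ^ (4 / 3 : ℝ) := by
    rw [ht, ← Real.rpow_natCast, ← Real.rpow_mul hn0]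
    norm_num
  -- `N = ⌊t⌋`
  set N : ℕ := ⌊t⌋₊ with hN
  have hN1 : 1 ≤ N := Nat.le_floor (by simpa using ht1)
  have hNt : (N : ℝ) ≤ t := Nat.floor_le (by linarith)
  have htN : t < N + 1 := Nat.lt_floor_add_one t
  have hN1' : (1 : ℝ) ≤ N := by exact_mod_cast hN1
  have h3 : 3 * N ^ 3 ≤ n := by
    have : (3 : ℝ) * (N : ℝ) ^ 3 ≤ (n : ℝ) := by
      calc (3 : ℝ) * (N : ℝ) ^ 3 ≤ 3 * t ^ 3 := by gcongr
        _ = (n : ℝ) := by rw [ht3]; ring
    exact_mod_cast this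
  have h4 : N ^ 4 ≤ u n := pow_four_le_u hN1 h3
  have h4' : (N : ℝ) ^ 4 ≤ u n := by exact_mod_cast h4
  have h5 : t / 2 ≤ N := by linarith
  have h6 : (t / 2) ^ 4 ≤ (N : ℝ) ^ 4 := by
    have : 0 ≤ t / 2 := by linarith
    gcongr
  have h7 : (n : ℝ) ^ (4 / 3 : ℝ) = (3 : ℝ) ^ (4 / 3 : ℝ) * t ^ 4 := by
    rw [ht4, ← Real.mul_rpow (by norm_num) hn0]
    congr 1
    ring
  have h8 : (3 : ℝ) ^ (4 / 3 : ℝ) ≤ 35 / 8 := by
    have e : (3 : ℝ) ^ (4 / 3 : ℝ) = ((3 : ℝ) ^ (4 : ℝ)) ^ (1 / 3 : ℝ) := by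
      rw [← Real.rpow_mul (by norm_num)]; norm_num
    rw [e]
    have e2 : (35 / 8 : ℝ) = ((35 / 8 : ℝ) ^ (3 : ℝ)) ^ (1 / 3 : ℝ) := by
      rw [← Real.rpow_mul (by norm_num)]; norm_num
    rw [e2]
    apply Real.rpow_le_rpow (by positivity) _ (by norm_num)
    rw [show (4 : ℝ) = ((4 : ℕ) : ℝ) by norm_num, show (3 : ℝ) = ((3 : ℕ) : ℝ) by norm_num,
      Real.rpow_natCast, Real.rpow_natCast]
    norm_num
  rw [h7]
  have h9 : (0 : ℝ) ≤ t ^ 4 := by positivity
  have h10 : (3 : ℝ) ^ (4 / 3 : ℝ) * t ^ 4 ≤ 35 / 8 * t ^ 4 := by gcongr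
  have h11 : (t / 2) ^ 4 = t ^ 4 / 16 := by ring
  linarith

end Pool.Agent.Results.MP_75315a_co.FourThirds
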